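import Pool.Agent.H12.LT.Res

/-!
# Almost all linear twists, almost all translates

Let `P` be a polynomial of degree `d ≥ 2` over the field with `p` elements, `p` not dividing `d`. For
any three sets `A`, `B`, `E` of residues and for all but a few `t`, the number of the pairs `x ≠ y`,
`x ∈ A`, `y ∈ B`, with `y + Q(x) - Q(y) ∈ E`, `Q = P + t X`, is at least half of the expected
number. For quadratic `P` and odd `p` the same holds for `P` itself and the translates of the three
sets by `s`, for all but a few `s`. If `A = B = E` has more than `p ^ 0.99` elements then there are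
at most `5 d p ^ 0.03` exceptional `t` and `10 p ^ 0.03` exceptional `s`.

Sketch of the proof. The pair `(x, y)` gives the line `z = (y + P(x) - P(y)) + t (x - y)` in the
`(t, z)` plane. Lines of different slopes meet in one point, and at most `d - 1` pairs give the same
line, except for one slope if `d = 2`. So the second moment of the number of the lines through a
point is at most `D ^ 2 + d p |A| |B|`, where `D` is the number of the pairs `x ≠ y`.
-/

set_option autoImplicit false

open Polynomial Finset

namespace Pool.Agent.Results.MP_29cad5_co.LinearTwists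

open Classical in
theorem result :
    (∀ p : ℕ, p.Prime → ∀ P : Polynomial (ZMod p), 2 ≤ P.natDegree → ¬ p ∣ P.natDegree →
      ∀ A B E : Finset (ZMod p), ∀ D : ℕ,
        D = ((A ×ˢ B).filter fun q : ZMod p × ZMod p => q.1 ≠ q.2).card →
        {t : ZMod p | 2 * p * ((A ×ˢ B).filter fun q : ZMod p × ZMod p => q.1 ≠ q.2 ∧
          q.2 + (P + C t * X).eval q.1 - (P + C t * X).eval q.2 ∈ E).card < E.card * D}.ncard *
          (E.card * D ^ 2) ≤ 4 * P.natDegree * p ^ 3 * (A.card * B.card)) ∧
    (∀ p : ℕ, p.Prime → p ≠ 2 → ∀ P : Polynomial (ZMod p), P.natDegree = 2 →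
      ∀ A B E : Finset (ZMod p), ∀ D : ℕ,
        D = ((A ×ˢ B).filter fun q : ZMod p × ZMod p => q.1 ≠ q.2).card →
        {s : ZMod p | 2 * p * ((A.image (· + s) ×ˢ B.image (· + s)).filter
          fun q : ZMod p × ZMod p => q.1 ≠ q.2 ∧
            q.2 + P.eval q.1 - P.eval q.2 ∈ E.image (· + s)).card < E.card * D}.ncard *
          (E.card * D ^ 2) ≤ 8 * p ^ 3 * (A.card * B.card)) ∧
    (∀ P : Polynomial ℤ, 2 ≤ P.natDegree → ∃ p₀ : ℕ, ∀ p : ℕ, p.Prime → p₀ ≤ p →
      ∀ A : Finset (ZMod p), (p : ℝ) ^ (0.99 : ℝ) < A.card →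
        (((range p).filter fun t : ℕ => ¬ ∃ x ∈ A, ∃ y ∈ A, x ≠ y ∧
          y + eval x (map (Int.castRingHom (ZMod p)) (P + C (t : ℤ) * X)) -
            eval y (map (Int.castRingHom (ZMod p)) (P + C (t : ℤ) * X)) ∈ A).card : ℝ) ≤
          5 * P.natDegree * (p : ℝ) ^ (0.03 : ℝ) ∧
        (P.natDegree = 2 → ({s : ZMod p | ¬ ∃ x ∈ A.image (· + s), ∃ y ∈ A.image (· + s),
          x ≠ y ∧ y + eval x (map (Int.castRingHom (ZMod p)) P) -
            eval y (map (Int.castRingHom (ZMod p)) P) ∈ A.image (· + s)}.ncard : ℝ) ≤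
          10 * (p : ℝ) ^ (0.03 : ℝ))) := by
  refine ⟨?_, ?_, ?_⟩
  · intro p hp P hP hd A B E D hD
    convert Pool.Agent.H12.LT.part_one p hp P hP hd A B E D (by rw [hD]) using 8
  · intro p hp hp2 P hP A B E D hD
    convert Pool.Agent.H12.LT.part_two p hp hp2 P hP A B E D (by rw [hD]) using 8
  · intro P hP
    exact Pool.Agent.H12.LT.part_three P hP

end Pool.Agent.Results.MP_29cad5_co.LinearTwists
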