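import Pool.Agent.H55.Roth.Final

/-!
# Nonlinear Roth patterns in sets of polylogarithmic density

For every integer polynomial `P` of degree at least `2` there is a constant `C` such that, for all
large primes `p`, every set `A` of residues mod `p` with at least `C p (log log p / log p)^(1/4)`
elements contains at least `|A|^4 / (4 p^2)` pairs `x ≠ y` with `x, y, y + P(x) - P(y) ∈ A`.

Sketch of the proof. The equation is `P(x) = z + (P(y) - y)` with `x, y, z ∈ A`. A large set `B`
of almost periods of the convolution of `A` and `P(A)` (sampling argument) shows that the number of
solutions is not changed much when the three multiplicity functions are smoothed by the law `M` of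
the difference of two random elements of `B`. Weyl's bound for exponential sums allows one to
compare the smoothed count with the average over `x` of the product of the smoothed functions at
`P(x)`, `P(x) - x`, `x`, and that average is at least `(|A|/p)^4` by the inequality
`∑ R(u) / (R * M)(u) ≤ p` and the inequality of the arithmetic and geometric means.
-/

set_option autoImplicit false

namespace Pool.Agent.Results.MP_29cad5_co.PolylogDensity

theorem result :
    ∀ P : Polynomial ℤ, 2 ≤ P.natDegree →
      ∃ C : ℝ, 0 < C ∧ ∃ p₀ : ℕ, ∀ p : ℕ, p.Prime → p₀ ≤ p →
        ∀ A : Finset (ZMod p),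
          C * p * (Real.log (Real.log p) / Real.log p) ^ (1 / 4 : ℝ) ≤ (A.card : ℝ) →
          (A.card : ℝ) ^ 4 / (4 * (p : ℝ) ^ 2) ≤
            (((A ×ˢ A).filter fun q : ZMod p × ZMod p => q.1 ≠ q.2 ∧
              q.2 + Polynomial.eval q.1 (Polynomial.map (Int.castRingHom (ZMod p)) P)
                - Polynomial.eval q.2 (Polynomial.map (Int.castRingHom (ZMod p)) P) ∈ A).card :
              ℝ) :=
  fun P hP => Pool.Agent.H55.Roth.main P hP

end Pool.Agent.Results.MP_29cad5_co.PolylogDensity
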