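import Pool.Agent.H12.TT.Main

/-!
# Every nonlinear polynomial has pattern free sets with about `p ^ (2 / 3)` elements

For every integer polynomial `P` of degree `d ≥ 2` and every prime `p` which does not divide its
leading coefficient there is a set `A` of residues mod `p` with
`|A| ≥ p ^ (2 / 3) exp (- 4 √(log p)) / (12500 d ^ 2)` without distinct `x, y ∈ A` such that
`y + P(x) - P(y) ∈ A`.

Sketch of the proof. Put `l = ⌊p ^ (2 / 3)⌋` and let `B` be a set of at least
`N exp (- 4 √(log N))` integers in `[0, N)`, `N = ⌊p / (4 l)⌋`, without three terms in arithmetic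
progression (Behrend). Let `T` be the union over `b ∈ B` of the boxes
`[4 l b, 4 l b + l) × [2 l b, 2 l b + l)` mod `p`. For `(λ, a, b)` in `𝔽_p ^ 3` consider the set
`S` of the `x` with `(λ x + a, λ P(x) + b) ∈ T`. If `x, y` and `z = y + P(x) - P(y)` are in `S`
then their points lie in one and the same box, so `λ (x - y)`, `λ (P(x) - P(y))` and
`λ (P(z) - P(y))` are residues of integers of absolute value less than `l`. As a polynomial in `x`,
a nonzero combination of `x - y`, `P(x) - P(y)` and `P(y + P(x) - P(y)) - P(y)` has degree at most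
`d ^ 2` and does not vanish identically, and Fourier analysis shows that there are at most
`64 l ^ 3 + 8 d ^ 2 p ^ 2` such triples `(λ, x, y)`. By averaging some `S` has at least
`|T| / (2 p)` elements and `O(d ^ 2 |S|)` patterns, and a maximal independent set does the rest.
-/

set_option autoImplicit false

namespace Pool.Agent.Results.MP_29cad5_co.TwoThirds

theorem result :
    ∀ P : Polynomial ℤ, 2 ≤ P.natDegree →
      ∀ p : ℕ, p.Prime → ¬ (p : ℤ) ∣ P.leadingCoeff →
        ∃ A : Finset (ZMod p),
          (p : ℝ) ^ (2 / 3 : ℝ) * Real.exp (-4 * Real.sqrt (Real.log p)) /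
            (12500 * (P.natDegree : ℝ) ^ 2) ≤ (A.card : ℝ) ∧
          ∀ x ∈ A, ∀ y ∈ A, x ≠ y →
            y + Polynomial.eval x (Polynomial.map (Int.castRingHom (ZMod p)) P)
              - Polynomial.eval y (Polynomial.map (Int.castRingHom (ZMod p)) P) ∉ A :=
  fun P hP p hp h => Pool.Agent.H12.TT.integer_version P hP p hp h

end Pool.Agent.Results.MP_29cad5_co.TwoThirds
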