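import Pool.Agent.H12.TT.Main

/-!
# The threshold of a typical polynomial

Let `3 p ^ (2 / 3) ≤ D ≤ p`. For all but a small proportion of the polynomials `P` of degree less
than `D` over the field with `p` elements the largest set `A` without distinct `x, y ∈ A` such
that `y + P(x) - P(y) ∈ A` has between `p ^ (2 / 3 - o(1))` and `3 p ^ (2 / 3)` elements. For
`D = p` these polynomials represent all functions.

Sketch of the proof. Upper bound: if `A` is pattern free then `P` and `x - P(x)` are injective
on `A` and the three sets `A`, `P(A)` and `(id - P)(A)` determine the restriction of `P` to `A`;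
hence there are at most `(p choose m) ^ 3 p ^ (D - m)` polynomials with a pattern free set of
`m ≤ D` elements. Lower bound: the construction with a union of boxes along a line of slope `1/2`
indexed by a set without three term progressions; the number of the triples `(λ, x, y)` for which
`λ (x - y)`, `λ (P(x) - P(y))`, `λ (P(y + P(x) - P(y)) - P(y))` are small is at most
`12 p ^ 2` on average over `P`, because the values at three points are independent.
-/

set_option autoImplicit false

namespace Pool.Agent.Results.MP_29cad5_co.TypicalPolynomials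

theorem result :
    ∀ p : ℕ, p.Prime → ∀ D : ℕ, 3 * (p : ℝ) ^ (2 / 3 : ℝ) ≤ D → D ≤ p →
      (({P : Polynomial (ZMod p) | P.degree < D ∧ ∃ A : Finset (ZMod p),
        3 * (p : ℝ) ^ (2 / 3 : ℝ) ≤ (A.card : ℝ) ∧
        ∀ x ∈ A, ∀ y ∈ A, x ≠ y → y + P.eval x - P.eval y ∉ A} :
          Set (Polynomial (ZMod p))).ncard : ℝ) ≤
        (3 / 4 : ℝ) ^ (3 * (p : ℝ) ^ (2 / 3 : ℝ)) * (p : ℝ) ^ D ∧
      ∀ s : ℝ, 1 ≤ s →
        (({P : Polynomial (ZMod p) | P.degree < D ∧ ¬ ∃ A : Finset (ZMod p),
          (p : ℝ) ^ (2 / 3 : ℝ) * Real.exp (-4 * Real.sqrt (Real.log p)) / (7000 * s) ≤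
            (A.card : ℝ) ∧ ∀ x ∈ A, ∀ y ∈ A, x ≠ y → y + P.eval x - P.eval y ∉ A} :
            Set (Polynomial (ZMod p))).ncard : ℝ) ≤ (p : ℝ) ^ D / s :=
  fun p hp D hD0 hD => Pool.Agent.H12.TT.typical p hp D hD0 hD

end Pool.Agent.Results.MP_29cad5_co.TypicalPolynomials
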